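import Pool.Agent.P.MP_883472_co.Six.Main

namespace Pool.Agent.Results.MP_883472_co.SixBound

/-- Every red-blue colouring of the pairs `i < j` of `Fin N` (red where `red i j` holds, blue
otherwise) has a red ordered copy of the nested matching on six vertices or a blue ordered copy
of the complete graph on `n` vertices. -/
def Arrows (N n : ℕ) : Prop :=
  ∀ red : Fin N → Fin N → Prop,
    (∃ g : Fin 6 → Fin N, StrictMono g ∧ red (g 0) (g 5) ∧ red (g 1) (g 4) ∧ red (g 2) (g 3)) ∨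
    (∃ g : Fin n → Fin N, StrictMono g ∧ ∀ i j, i < j → ¬ red (g i) (g j))

/-- The greedy partition of the natural numbers into maximal intervals without an edge. -/
theorem rows (E : ℕ → ℕ → Prop) (hl : ∀ i j, E i j → i < j) (he : ∀ m, ∃ j i, m ≤ i ∧ E i j) :
    ∃ s r : ℕ → ℕ, StrictMono s ∧ (∀ x, s (r x) ≤ x ∧ x < s (r x + 1)) ∧
      (∀ k, ∃ i, s k ≤ i ∧ E i (s (k + 1))) ∧ ∀ k i j, s k ≤ i → E i j → s (k + 1) ≤ j := by
  classical
  obtain ⟨s, s0, s1⟩ : ∃ s : ℕ → ℕ, s 0 = 0 ∧ ∀ k, s (k + 1) = Nat.find (he (s k)) :=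
    ⟨fun k => Nat.rec 0 (fun _ m => Nat.find (he m)) k, rfl, fun _ => rfl⟩
  have h1 : ∀ k, ∃ i, s k ≤ i ∧ E i (s (k + 1)) := fun k => by
    rw [s1]
    exact Nat.find_spec (he (s k))
  have h2 : StrictMono s := strictMono_nat_of_lt_succ fun k => by
    obtain ⟨i, a, b⟩ := h1 k
    exact a.trans_lt (hl _ _ b)
  have h3 : ∀ x, ∃ k, x < s (k + 1) := fun x => ⟨x, h2.le_apply (x := x + 1)⟩
  refine ⟨s, fun x => Nat.find (h3 x), h2, fun x => ⟨?_, Nat.find_spec (h3 x)⟩, h1,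
    fun k i j a b => (s1 k).trans_le (Nat.find_min' (he (s k)) ⟨i, a, b⟩)⟩
  show s (Nat.find (h3 x)) ≤ x
  rcases e : Nat.find (h3 x) with _ | k
  · exact s0.trans_le (Nat.zero_le _)
  · exact not_lt.1 (Nat.find_min (h3 x) (by omega : k < Nat.find (h3 x)))

theorem row_eq {s r : ℕ → ℕ} (hs : StrictMono s) (hr : ∀ x, s (r x) ≤ x ∧ x < s (r x + 1))
    {x k : ℕ} (h1 : s k ≤ x) (h2 : x < s (k + 1)) : r x = k := by
  have a := hs.lt_iff_lt.1 ((hr x).1.trans_lt h2)
  have b := hs.lt_iff_lt.1 (h1.trans_lt (hr x).2)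
  omega

/-- The square of a path together with one queue of long edges has a proper colouring with six
colours. -/
theorem col_long (Q : ℕ → ℕ → Prop) (hl : ∀ i j, Q i j → i + 3 ≤ j)
    (hn : ∀ i j i' j', Q i j → Q i' j' → i < i' → j ≤ j') (N : ℕ) (he : ∀ m, N ≤ m → Q m (m + 3)) :
    ∃ c : ℕ → Bool × Fin 3, ∀ i j, i < j → (j ≤ i + 2 ∨ Q i j) → c i ≠ c j := by
  classical
  have h0 : ∀ m, ∃ j i, m ≤ i ∧ Q i j := fun m =>
    ⟨max m N + 3, max m N, le_max_left _ _, he _ (le_max_right _ _)⟩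
  obtain ⟨f, h1, h2⟩ : ∃ f : ℕ → ℕ, (∀ m, ∃ i, m ≤ i ∧ Q i (f m)) ∧
      ∀ m i j, m ≤ i → Q i j → f m ≤ j :=
    ⟨fun m => Nat.find (h0 m), fun m => Nat.find_spec (h0 m),
      fun m i j x y => Nat.find_min' (h0 m) ⟨i, x, y⟩⟩
  have h3 : ∀ m, m + 3 ≤ f m := fun m => by
    obtain ⟨i, a, b⟩ := h1 m
    have := hl _ _ b
    omega
  obtain ⟨c, hc⟩ := P.MP_883472_co.Six.six (f := fun y => f (y - 1) + 1) (N := N + 1)
    (fun x y h => by
      obtain ⟨i, a, b⟩ := h1 (y - 1)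
      have := h2 (x - 1) i _ (by omega) b
      exact Nat.succ_le_succ this)
    (fun y => by have := h3 (y - 1); omega) fun y hy => by
      have := h3 (y - 1)
      have := h2 _ _ _ le_rfl (he (y - 1) (by omega))
      omega
  refine ⟨fun i => c (i + 1), fun i j hij h => hc _ _ (by omega) ⟨by omega, h.imp (by omega) ?_⟩⟩
  intro h
  obtain ⟨i', a, b⟩ := h1 (i + 1)
  exact ⟨Nat.succ_le_succ (h2 i i j le_rfl h), Nat.succ_le_succ (hn _ _ _ _ h b a)⟩

/-- An ordered graph without the nested matching on six vertices has a proper colouring with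
six colours. -/
theorem col (N : ℕ) (R : ℕ → ℕ → Prop) (hl : ∀ x y, R x y → x < y ∧ y < N)
    (hn : ∀ a b c d e f, a < b → b < c → d < e → e < f → R a f → R b e → ¬ R c d) :
    ∃ c : ℕ → Bool × Fin 3, ∀ x y, R x y → c x ≠ c y := by
  obtain ⟨s, r, hs, hr, h1, h2⟩ := rows (fun x y => R x y ∨ (N ≤ x ∧ y = x + 1))
    (fun i j h => by rcases h with h | h; exacts [(hl i j h).1, by omega])
    (fun m => ⟨max m N + 1, max m N, le_max_left _ _, Or.inr ⟨le_max_right _ _, rfl⟩⟩)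
  have h3 : ∀ x y, r x < r y → x < y := fun x y h =>
    (hr x).2.trans_le ((hs.monotone h).trans (hr y).1)
  have h4 : ∀ x, r x ≤ x := fun x => hs.le_apply.trans (hr x).1
  obtain ⟨c, hc'⟩ := col_long (fun i j => (i + 3 ≤ j ∧ ∃ x y, R x y ∧ r x = i ∧ r y = j) ∨
      (N ≤ i ∧ j = i + 3)) (fun i j h => by omega) (fun i j i' j' h h' hi => by
      rcases h with ⟨a1, x, y, a2, rfl, rfl⟩ | h <;>
        rcases h' with ⟨b1, x', y', b2, rfl, rfl⟩ | h'
      · by_contra hj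
        obtain ⟨z, c1, c2⟩ := h1 (r x' + 1)
        have c3 : s (r x' + 1 + 1) < y' := (hs (by omega)).trans_le (hr y').1
        have c4 := (hl _ _ b2).2
        rcases c2 with c2 | c2
        · exact hn _ _ _ _ _ _ (h3 _ _ hi) ((hr x').2.trans_le c1) c3 (h3 _ _ (by omega)) a2 b2 c2
        · omega
      · have := hl _ _ a2
        have := h4 y
        omega
      · have := hl _ _ b2
        have := h4 x'
        omega
      · omega)
    N fun m hm => Or.inr ⟨hm, rfl⟩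
  refine ⟨fun x => c (r x), fun x y h => hc' _ _ ?_ ?_⟩
  · have := hs.lt_iff_lt.1 ((h2 _ _ _ (hr x).1 (Or.inl h)).trans_lt (hr y).2)
    omega
  · by_cases e : r y ≤ r x + 2
    · exact Or.inl e
    · exact Or.inr (Or.inl ⟨by omega, x, y, h, rfl, rfl⟩)

theorem result : ∀ n : ℕ, 1 ≤ n → Arrows (6 * n - 5) n := by
  classical
  intro n hn red
  refine or_iff_not_imp_left.2 fun h => ?_
  obtain ⟨c, hc'⟩ := col (6 * n - 5)
    (fun x y => ∃ x' y' : Fin (6 * n - 5), x' < y' ∧ red x' y' ∧ x'.val = x ∧ y'.val = y)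
    (by
      rintro _ _ ⟨x, y, a, -, rfl, rfl⟩
      exact ⟨a, y.2⟩)
    (by
      rintro _ _ _ _ _ _ a1 a2 a3 a4 ⟨a, f, -, b1, rfl, rfl⟩ ⟨b, e, -, b2, rfl, rfl⟩
        ⟨c, d, a5, b3, rfl, rfl⟩
      refine h ⟨![a, b, c, d, e, f], Fin.strictMono_iff_lt_succ.2 fun i => ?_, b1, b2, b3⟩
      fin_cases i
      exacts [a1, a2, a5, a3, a4])
  obtain ⟨y, -, hy⟩ := Finset.exists_lt_card_fiber_of_mul_lt_card_of_maps_to
    (s := (Finset.univ : Finset (Fin (6 * n - 5)))) (t := Finset.univ) (f := fun x => c x.val)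
    (n := n - 1) (fun x _ => Finset.mem_univ _) (by simp; omega)
  have hy' : n ≤ (Finset.univ.filter fun x : Fin (6 * n - 5) => c x.val = y).card := by omega
  refine ⟨Finset.orderEmbOfCardLe _ hy', (Finset.orderEmbOfCardLe _ hy').strictMono,
    fun i j hij hr => hc' _ _ ⟨_, _, (Finset.orderEmbOfCardLe _ hy').strictMono hij, hr, rfl, rfl⟩
      ?_⟩
  rw [(Finset.mem_filter.1 (Finset.orderEmbOfCardLe_mem _ hy' i)).2,
    (Finset.mem_filter.1 (Finset.orderEmbOfCardLe_mem _ hy' j)).2]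

end Pool.Agent.Results.MP_883472_co.SixBound
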